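import Pool.Agent.R893.TP2.FinAM
import Pool.Agent.R893.TP2.All

/-!
# Brauer's `k(B)`-conjecture is equivalent to its asymptotic form
-/

namespace Pool.Agent.Results.MP_a15589_al.TensorPowerGap

open Pool.Agent.H254R3.IN Pool.Agent.R893.TP2

/-- Let `p` be a prime and `X` a family of blocks closed under the tensor square
`(G, D, B) ↦ (G × G, D × D, B ⊗ B)`, for instance all blocks of all finite groups, and let `α` be a
real number (`α = 1` is the case of Brauer's `k(B)`-conjecture). If for every `ε > 0` there are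
`C, N` such that `k(B) ≤ C |G|^ε |D|^α` for all blocks `B` in `X` with defect group `D`,
`|D| ≥ N`, then `k(B) ≤ |D|^α` for all blocks in `X` with nontrivial defect group `D`
(and conversely). -/
theorem result (p : ℕ) (hp : p.Prime) (O : ValuationSubring ℂ) (hO : (p : ℂ) ∈ O.nonunits)
    (X : ∀ (G : Type) [Group G], Subgroup G → Set (G → ℂ) → Prop) (hX : SqClosed X) (α : ℝ) :
    (∀ ε : ℝ, 0 < ε → ∃ C : ℝ, ∃ N : ℕ, ∀ (G : Type) [Group G] [Finite G] (D : Subgroup G)
        (B : Set (G → ℂ)), X G D B → IsBlock O B → IsDefectGroup p O B D → 1 < Nat.card D →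
        N ≤ Nat.card D →
        (Nat.card B : ℝ) ≤ C * (Nat.card G : ℝ) ^ ε * (Nat.card D : ℝ) ^ α) ↔
      (∀ (G : Type) [Group G] [Finite G] (D : Subgroup G)
        (B : Set (G → ℂ)), X G D B → IsBlock O B → IsDefectGroup p O B D → 1 < Nat.card D →
        (Nat.card B : ℝ) ≤ (Nat.card D : ℝ) ^ α) :=
  kb_final hBLK hDEF hKB p hp O hO X hX α

end Pool.Agent.Results.MP_a15589_al.TensorPowerGap
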